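import Pool.Agent.Helper56.TOF.Goals
import Pool.Agent.Helper75.AB.PARI

/-! # Project TOF, packet BOX -/

set_option autoImplicit false

open Set Filter Topology MeasureTheory

open scoped ContDiff

namespace Pool.Agent.Helper35.TOF

open Pool.Agent.Helper56.RZ Pool.Agent.Helper30.CIR Pool.Agent.Helper56.TOF

/-- orbits of points near `p` leave and do not come back before time `8` -/
theorem radius {K : ℕ} {s : WithTop ℕ∞} {M : Set (E K)} {A : ℝ → E K → E K} {p : E K}
    (hA : Flow s M A) (hp : p ∈ M) (hn : NoPeriod A 8 p) :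
    ∃ r > 0, ∀ x ∈ M, dist x p ≤ r → ∀ u : ℝ, 1 / 20 ≤ |u| → |u| ≤ 8 → r < dist (A u x) p := by
  have hc : ContinuousOn (fun q : ℝ × E K => A q.1 q.2) (univ ×ˢ M) := hA.smooth.continuousOn
  set C : Set ℝ := {u | 1 / 20 ≤ |u| ∧ |u| ≤ 8} with hC
  have hCc : IsCompact C := by
    have h1 : C = Icc (-8) 8 ∩ {u | 1 / 20 ≤ |u|} := by
      ext u
      simp only [hC, mem_ofPred_eq, mem_inter_iff, mem_Icc]
      rw [abs_le]
      tauto
    rw [h1]
    exact isCompact_Icc.inter_right (isClosed_le continuous_const continuous_abs)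
  have hne : C.Nonempty := ⟨1, by norm_num [hC]⟩
  have hAp : ∀ u ∈ C, A u p ≠ p := by
    intro u hu h
    have hu1 : 1 / 20 ≤ |u| := hu.1
    have hu2 : |u| ≤ 8 := hu.2
    rcases le_or_gt u 0 with h0 | h0
    · rw [abs_of_nonpos h0] at hu1 hu2
      have h1 : A (-u) p = p := by
        have h2 := hA.add (-u) u p hp
        rw [neg_add_cancel, hA.zero p hp, h] at h2
        exact h2.symm
      exact hn (-u) (by linarith) hu2 h1
    · rw [abs_of_pos h0] at hu2
      exact hn u h0 hu2 h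
  have hcp : ContinuousOn (fun u : ℝ => dist (A u p) p) C := by
    have h0 : ContinuousOn (fun u : ℝ => A u p) C := by
      refine hc.comp (f := fun u : ℝ => (u, p)) (by fun_prop) ?_
      intro u _
      exact ⟨mem_univ _, hp⟩
    exact continuous_dist.comp_continuousOn (h0.prodMk continuousOn_const)
  obtain ⟨u0, hu0, hmin⟩ := hCc.exists_isMinOn hne hcp
  set δ : ℝ := dist (A u0 p) p with hδ
  have hδ0 : 0 < δ := dist_pos.mpr (hAp u0 hu0)
  have hev : ∀ᶠ x in 𝓝 p, ∀ u ∈ C, x ∈ M → δ / 2 < dist (A u x) p := by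
    refine hCc.eventually_forall_of_forall_eventually ?_
    intro u hu
    have h1 : ContinuousWithinAt (fun q : ℝ × E K => dist (A q.1 q.2) p) (univ ×ˢ M) (u, p) :=
      (continuous_dist.comp_continuousOn (hc.prodMk continuousOn_const)) (u, p) ⟨mem_univ _, hp⟩
    have h2 : δ / 2 < dist (A u p) p := by
      have := isMinOn_iff.mp hmin u hu
      linarith
    have h3 : ∀ᶠ q in 𝓝[univ ×ˢ M] (u, p), δ / 2 < dist (A q.1 q.2) p :=
      h1.eventually_const_lt h2
    rw [eventually_nhdsWithin_iff] at h3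
    have h4 : Tendsto (fun z : E K × ℝ => (z.2, z.1)) (𝓝 (p, u)) (𝓝 (u, p)) :=
      (continuous_snd.prodMk continuous_fst).tendsto (p, u)
    filter_upwards [h4.eventually h3] with z hz hzM
    exact hz ⟨mem_univ _, hzM⟩
  obtain ⟨ε, hε, hball⟩ := Metric.eventually_nhds_iff.mp hev
  refine ⟨min (δ / 2) (ε / 2), lt_min (by linarith) (by linarith), ?_⟩
  intro x hx hxp u hu1 hu2
  have h5 : dist x p < ε := lt_of_le_of_lt (hxp.trans (min_le_right _ _)) (by linarith)
  exact lt_of_le_of_lt (min_le_left _ _) (hball h5 u ⟨hu1, hu2⟩ hx)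

/-- integral of a function which vanishes outside a subinterval -/
theorem int_sub {h : ℝ → ℝ} {a b α β : ℝ} (h1 : a ≤ α) (h2 : α ≤ β) (h3 : β ≤ b)
    (hz : ∀ s ∈ Icc a b, s ∉ Ioo α β → h s = 0) :
    ∫ s in a..b, h s = ∫ s in α..β, h s := by
  rw [intervalIntegral.integral_of_le (h1.trans (h2.trans h3)), intervalIntegral.integral_of_le h2]
  refine setIntegral_eq_of_subset_of_forall_sdiff_eq_zero measurableSet_Ioc
    (Ioc_subset_Ioc h1 h3) ?_
  intro s hs
  refine hz s (Ioc_subset_Icc_self hs.1) fun hs' => hs.2 (Ioo_subset_Ioc_self hs')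

/-- smoothness of integrals over orbits -/
theorem smooth_int {N K : ℕ} {s : WithTop ℕ∞} {M : Set (E K)} {m : Measure (E K)}
    {A : ℝ → E K → E K} (hs : s ≤ ∞) (hM : ClosedManifold N K M m) (hA : Flow s M A)
    (f : ℝ × E K → ℝ) (hf : ContDiff ℝ ∞ f) (a b : ℝ) :
    ContDiffOn ℝ s (fun x => ∫ θ in a..b, f (θ, A θ x)) M := by
  have hst : s ≠ ⊤ := ne_top_of_le_ne_top (by simp) hs
  obtain ⟨n, rfl⟩ := WithTop.ne_top_iff_exists.mp hst
  intro x0 hx0
  obtain ⟨c, hc, -⟩ := hM.chart x0 hx0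
  have hG : ContDiffOn ℝ n (fun z : E N × ℝ => f (z.2, A z.2 (c.ψ z.1)))
      (c.V ×ˢ (univ : Set ℝ)) := by
    have h1 : ContDiffOn ℝ n (fun z : E N × ℝ => (z.2, c.ψ z.1)) (c.V ×ˢ (univ : Set ℝ)) := by
      refine ContDiffOn.prodMk contDiffOn_snd ?_
      exact (c.smoothψ.of_le hs).comp contDiffOn_fst fun z hz => hz.1
    have h2 : ContDiffOn ℝ n (fun z : E N × ℝ => A z.2 (c.ψ z.1)) (c.V ×ˢ (univ : Set ℝ)) := by
      refine hA.smooth.comp h1 ?_
      intro z hz
      exact ⟨mem_univ _, (c.mapsψ _ hz.1).1⟩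
    refine (hf.of_le hs).comp_contDiffOn (contDiffOn_snd.prodMk h2)
  have hI : ContDiffOn ℝ n (fun z => ∫ θ in a..b, f (θ, A θ (c.ψ z))) c.V := by
    rw [contDiffOn_iff_forall_nat_le]
    intro k hk
    exact Pool.Agent.Helper75.AB.pari_nat a b c.openV k
      (fun z : E N × ℝ => f (z.2, A z.2 (c.ψ z.1))) (hG.of_le (by exact_mod_cast hk))
  have hB : ContDiffOn ℝ n (fun x => ∫ θ in a..b, f (θ, A θ x)) (M ∩ c.W) := by
    have h3 : ContDiffOn ℝ n (fun x => ∫ θ in a..b, f (θ, A θ (c.ψ (c.φ x)))) (M ∩ c.W) := by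
      refine hI.comp (((c.smoothφ.of_le hs)).mono inter_subset_right) ?_
      intro x hx
      exact c.mapsφ x hx
    refine h3.congr ?_
    intro x hx
    simp only [c.right x hx]
  have h4 : ContDiffWithinAt ℝ n (fun x => ∫ θ in a..b, f (θ, A θ x)) (M ∩ c.W) x0 :=
    hB x0 ⟨hx0, hc⟩
  exact (contDiffWithinAt_inter (c.openW.mem_nhds hc)).mp h4

/-- the data of one orbit -/
structure Orb (g : ℝ → ℝ) : Prop where
  cont : Continuous g
  nonneg : ∀ s, 0 ≤ g s
  sep : ∀ s t, g s ≠ 0 → g t ≠ 0 → |s - t| ≤ 8 → |s - t| < 1 / 20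

theorem Orb.pos {g : ℝ → ℝ} (hg : Orb g) {s0 : ℝ} (h : g s0 ≠ 0) (h4 : |s0| ≤ 4) :
    0 < ∫ s in (-4 : ℝ)..4, g s := by
  refine intervalIntegral.integral_pos (by norm_num) hg.cont.continuousOn
    (fun s _ => hg.nonneg s) ⟨s0, ?_, lt_of_le_of_ne (hg.nonneg s0) (Ne.symm h)⟩
  exact abs_le.mp h4

/-- the centre -/
theorem Orb.center {g : ℝ → ℝ} (hg : Orb g) (hB : 0 < ∫ s in (-4 : ℝ)..4, g s) {t ε : ℝ}
    (ht : ∀ s ∈ Icc (-4 : ℝ) 4, g s ≠ 0 → |s - t| ≤ ε) :
    |(∫ s in (-4 : ℝ)..4, s * g s) / (∫ s in (-4 : ℝ)..4, g s) - t| ≤ ε := by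
  set B := ∫ s in (-4 : ℝ)..4, g s with hBd
  have h1 : ∫ s in (-4 : ℝ)..4, (s - t) * g s = (∫ s in (-4 : ℝ)..4, s * g s) - t * B := by
    have h2 : ∫ s in (-4 : ℝ)..4, (s - t) * g s = ∫ s in (-4 : ℝ)..4, (s * g s - t * g s) := by
      refine intervalIntegral.integral_congr fun s _ => ?_
      ring
    rw [h2, intervalIntegral.integral_sub, intervalIntegral.integral_const_mul]
    · exact (continuous_id.mul hg.cont).intervalIntegrable _ _
    · exact (continuous_const.mul hg.cont).intervalIntegrable _ _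
  have h3 : |∫ s in (-4 : ℝ)..4, (s - t) * g s| ≤ ε * B := by
    have h4 : |∫ s in (-4 : ℝ)..4, (s - t) * g s| ≤ ∫ s in (-4 : ℝ)..4, |(s - t) * g s| :=
      intervalIntegral.abs_integral_le_integral_abs (by norm_num)
    have h5 : ∫ s in (-4 : ℝ)..4, |(s - t) * g s| ≤ ∫ s in (-4 : ℝ)..4, ε * g s := by
      refine intervalIntegral.integral_mono_on (by norm_num) ?_ ?_ ?_
      · have := hg.cont
        exact Continuous.intervalIntegrable (by fun_prop) _ _
      · exact (continuous_const.mul hg.cont).intervalIntegrable _ _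
      · intro s hs
        rw [abs_mul, abs_of_nonneg (hg.nonneg s)]
        by_cases h0 : g s = 0
        · rw [h0]
          simp
        · exact mul_le_mul_of_nonneg_right (ht s hs h0) (hg.nonneg s)
    rw [intervalIntegral.integral_const_mul] at h5
    exact h4.trans h5
  have h6 : (∫ s in (-4 : ℝ)..4, s * g s) / B - t = (∫ s in (-4 : ℝ)..4, (s - t) * g s) / B := by
    rw [h1]
    field_simp
  rw [h6, abs_div, abs_of_pos hB, div_le_iff₀ hB]
  exact h3

/-- the two windows see the same part of the orbit -/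
theorem Orb.win {g : ℝ → ℝ} (hg : Orb g) (hB : 0 < ∫ s in (-4 : ℝ)..4, g s) {τ u : ℝ}
    (hτ : τ = -(∫ s in (-4 : ℝ)..4, s * g s) / (∫ s in (-4 : ℝ)..4, g s))
    (h1 : |τ| ≤ 7 / 2) (h2 : |τ + u| ≤ 7 / 2) (h : ℝ → ℝ) (hh : ∀ s, g s = 0 → h s = 0) :
    ∫ s in (-4 : ℝ)..4, h (s + u) = ∫ s in (-4 : ℝ)..4, h s := by
  have hex : ∃ s0 ∈ Icc (-4 : ℝ) 4, g s0 ≠ 0 := by
    by_contra hcon
    push Not at hcon
    have h0 : ∫ s in (-4 : ℝ)..4, g s = ∫ s in (-4 : ℝ)..4, (0 : ℝ) := by
      refine intervalIntegral.integral_congr fun s hs => ?_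
      rw [uIcc_of_le (by norm_num)] at hs
      exact hcon s hs
    rw [h0] at hB
    simp at hB
  obtain ⟨s0, hs0, hgs0⟩ := hex
  have hc : |τ + s0| ≤ 1 / 20 := by
    have h3 := hg.center hB (t := s0) (ε := 1 / 20) (by
      intro s hs hgs
      refine (hg.sep s s0 hgs hgs0 ?_).le
      rw [abs_le]
      constructor <;> linarith [hs.1, hs.2, hs0.1, hs0.2])
    have h4 : τ + s0 = -((∫ s in (-4 : ℝ)..4, s * g s) / (∫ s in (-4 : ℝ)..4, g s) - s0) := by
      rw [hτ]
      ring
    rw [h4, abs_neg]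
    exact h3
  rw [abs_le] at h1 h2 hc
  have key : ∀ s, -8 ≤ s - s0 → s - s0 ≤ 8 → s ∉ Ioo (-τ - 1 / 10) (-τ + 1 / 10) → h s = 0 := by
    intro s ha hb hs
    refine hh s ?_
    by_contra hgs
    have h5 := hg.sep s s0 hgs hgs0 (abs_le.mpr ⟨ha, hb⟩)
    rw [abs_lt] at h5
    exact hs ⟨by linarith, by linarith⟩
  have e1 : ∫ s in (-4 : ℝ)..4, h s = ∫ s in (-τ - 1 / 10)..(-τ + 1 / 10), h s := by
    refine int_sub (by linarith) (by linarith) (by linarith) ?_
    intro s hs hs'
    exact key s (by linarith [hs.1, hs0.2]) (by linarith [hs.2, hs0.1]) hs'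
  have e2 : ∫ s in (-4 + u : ℝ)..(4 + u), h s = ∫ s in (-τ - 1 / 10)..(-τ + 1 / 10), h s := by
    refine int_sub (by linarith) (by linarith) (by linarith) ?_
    intro s hs hs'
    exact key s (by linarith [hs.1]) (by linarith [hs.2]) hs'
  rw [intervalIntegral.integral_comp_add_right, e1, e2]

theorem gBOX : StmtBOX := by
  intro N K s M m A p h1s hs hM hA hp hn
  obtain ⟨r, hr, hrad⟩ := radius hA hp hn
  let f : ContDiffBump p := ⟨r / 2, r, by linarith, by linarith⟩
  have hfs : ContDiff ℝ ∞ (f : E K → ℝ) := f.contDiff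
  set B : E K → ℝ := fun x => ∫ θ in (-4 : ℝ)..4, f (A θ x) with hBd
  set T : E K → ℝ := fun x => ∫ θ in (-4 : ℝ)..4, θ * f (A θ x) with hTd
  have horb : ∀ x ∈ M, Orb (fun θ => f (A θ x)) := by
    intro x hx
    have hAc : Continuous (fun θ : ℝ => A θ x) := by
      rw [← continuousOn_univ]
      refine hA.smooth.continuousOn.comp (f := fun u : ℝ => (u, x)) (by fun_prop) ?_
      intro u _
      exact ⟨mem_univ _, hx⟩
    refine ⟨f.continuous.comp hAc, fun θ => f.nonneg, ?_⟩
    intro a b ha hb hab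
    by_contra hcon
    push Not at hcon
    have ha' : A a x ∈ Metric.ball p r := by
      have : A a x ∈ Function.support (f : E K → ℝ) := ha
      rwa [f.support_eq] at this
    have hb' : A b x ∈ Metric.ball p r := by
      have : A b x ∈ Function.support (f : E K → ℝ) := hb
      rwa [f.support_eq] at this
    have h2 := hrad (A b x) (hA.maps b hx) (Metric.mem_ball.mp hb').le (a - b) hcon hab
    rw [← hA.add _ _ _ hx, sub_add_cancel] at h2
    exact absurd (Metric.mem_ball.mp ha') (not_lt.mpr h2.le)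
  have hBs : ContDiffOn ℝ s B M :=
    smooth_int hs hM hA (fun q => f q.2) (hfs.comp contDiff_snd) _ _
  have hTs : ContDiffOn ℝ s T M :=
    smooth_int hs hM hA (fun q => q.1 * f q.2) (contDiff_fst.mul (hfs.comp contDiff_snd)) _ _
  refine ⟨f, B, fun x => -T x / B x, ?_, ?_, ?_, ?_, hBs, ?_, ?_⟩
  · exact f.continuous.continuousOn
  · intro x _
    exact ⟨f.nonneg, f.le_one⟩
  · have : f p = 1 := f.one_of_mem_closedBall (Metric.mem_closedBall_self f.rIn_pos.le)
    rw [this]
    norm_num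
  · intro x hx hbx
    have ho := horb x hx
    have hg0 : (fun θ => f (A θ x)) 0 ≠ 0 := by
      simp only [hA.zero x hx]
      exact hbx
    have hB : 0 < B x := ho.pos hg0 (by norm_num)
    refine ⟨hB, ?_⟩
    have h3 := ho.center hB (t := 0) (ε := 1 / 20) (by
      intro a ha hga
      refine (ho.sep a 0 hga hg0 ?_).le
      rw [abs_le]
      constructor <;> linarith [ha.1, ha.2])
    have h4 : -T x / B x = -(T x / B x - 0) := by ring
    rw [h4, abs_neg]
    have h5 : |T x / B x - 0| ≤ 1 / 20 := h3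
    linarith
  · refine ContDiffOn.div (hTs.neg.mono inter_subset_left) (hBs.mono inter_subset_left) ?_
    intro x hx
    exact ne_of_gt hx.2
  · intro x hx u hBx h1 h2
    have ho := horb x hx
    have hadd : ∀ θ : ℝ, A θ (A u x) = A (θ + u) x := fun θ => (hA.add θ u x hx).symm
    have e1 : B (A u x) = B x := by
      have h3 := ho.win (τ := -T x / B x) (u := u) hBx rfl h1 h2 (fun θ => f (A θ x))
        (fun _ h => h)
      have h4 : B (A u x) = ∫ θ in (-4 : ℝ)..4, f (A (θ + u) x) := by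
        simp only [hBd, hadd]
      rw [h4]
      exact h3
    have e2 : T (A u x) = T x - u * B x := by
      have h3 := ho.win (τ := -T x / B x) (u := u) hBx rfl h1 h2 (fun θ => (θ - u) * f (A θ x))
        (by
          intro θ h
          have h' : f (A θ x) = 0 := h
          simp only [h', mul_zero])
      have h4 : T (A u x) = ∫ θ in (-4 : ℝ)..4, (θ + u - u) * f (A (θ + u) x) := by
        simp only [hTd, hadd, add_sub_cancel_right]
      have h5 : ∫ θ in (-4 : ℝ)..4, (θ - u) * f (A θ x) = T x - u * B x := by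
        have h6 : ∫ θ in (-4 : ℝ)..4, (θ - u) * f (A θ x) =
            ∫ θ in (-4 : ℝ)..4, (θ * f (A θ x) - u * f (A θ x)) := by
          refine intervalIntegral.integral_congr fun θ _ => ?_
          ring
        rw [h6, intervalIntegral.integral_sub, intervalIntegral.integral_const_mul]
        · exact (continuous_id.mul ho.cont).intervalIntegrable _ _
        · exact (continuous_const.mul ho.cont).intervalIntegrable _ _
      rw [h4]
      exact h3.trans h5
    refine ⟨e1, ?_⟩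
    show -T (A u x) / B (A u x) = -T x / B x + u
    rw [e1, e2]
    have hne : B x ≠ 0 := ne_of_gt hBx
    field_simp
    ring

end Pool.Agent.Helper35.TOF
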